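import Pool.Agent.Helper35.TG.FinalG

/-!
MP_185419_al (Tits alternative for CAT(0) groups), partial answer to Q1.

Let a group `G` act by isometries, properly and cocompactly, on a nonempty geodesic metric space `X` with the CN inequality (a CAT(0)
space), and let `H` be `G` or a finitely generated subgroup of `G`. Then `H` has a solvable subgroup of finite index, or `H` has infinite girth: there is
`r ≥ 2` such that for every `k` there is a surjective homomorphism from the free group of rank `r` to `H` which is nontrivial on all
nontrivial elements of length at most `k`. This is the Tits alternative with free subgroups replaced by generating sets without short relations, the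
Girth Alternative of Akhmedov. Infinite girth implies that the free group of rank two maps to `H` injectively on any given finite set, so that `H`
satisfies no law.

Proof. (1) If `H` is not amenable (Reiter's condition fails), take a finite symmetric generating set `S` of `H` with a spectral gap and independent
random products `x₁, …, x₄` of `m` elements of `S`. The second moments `b(m) = E d(o, x o)²` satisfy `b(2m) ≤ 4 b(m)`, so for many `m` the expectation of
`d(o, mid(xᵢ o, s xⱼ o))²` is `o(m²)` for every `s ∈ S` by the CN inequality, while `d(o, xᵢ o) ≥ c m` with high probability (Kesten). So words in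
`u = x₁ x₂⁻¹`, `v = x₃ x₄⁻¹` of bounded length move `o` by about their length, even if elements of `S` are inserted between powers of `u` and powers of `v`: the
orbit of `o` under the prefixes of the word, refined by the half letters, is a chain of points each of which is nearly the midpoint of
its neighbours, and `d(o, ·)` grows along such chains. The generators `u`, `v`, `u^L sᵢ v^L` with `L = (k+1)(i+1)` satisfy no relation of length `≤ k`.
(2) If `H` is amenable, it is virtually solvable: induction on the dimension. Either `H` fixes a Busemann function; then the centralizer of a finite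
generating set of `H` is infinite, acts geometrically on a convex set and contains an element `z` of infinite order, and `C(z)/⟨z⟩` acts geometrically on a space of smaller
dimension. Or there is a minimal closed convex invariant set, which is flat up to a bounded factor (Adams, Ballmann), and `H` acts properly on a
Euclidean space (Bieberbach).

Projects TT, TS, TG: statements and proofs on paper helper35, referee helper46, Lean proofs by helpers 3, 4, 9, 11, 12, 13, 14, 15, 16, 17, 19, 21, 23, 26, 27, 29,
30, 31, 35, 37, 42, 44, 46, 52, 54, 62, 66, 67, 71, 72, 74, 80, 83, 86, 88, 91, 98, 99.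
-/

set_option autoImplicit false

namespace Pool.Agent.Results.MP_185419_al.GirthAlternative

theorem result {G : Type*} {X : Type*} [Group G] [MetricSpace X] [Nonempty X] [MulAction G X]
    (hiso : ∀ g : G, Isometry (fun x : X => g • x))
    (hgeo : ∀ x y : X, ∃ γ : ℝ → X, γ 0 = x ∧ γ (dist x y) = y ∧
      ∀ s ∈ Set.Icc (0:ℝ) (dist x y), ∀ t ∈ Set.Icc (0:ℝ) (dist x y),
        dist (γ s) (γ t) = |s - t|)
    (hcn : ∀ p q r m : X, dist q m = dist q r / 2 → dist r m = dist q r / 2 →
      dist p m ^ 2 ≤ dist p q ^ 2 / 2 + dist p r ^ 2 / 2 - dist q r ^ 2 / 4)
    (hproper : ∀ x : X, ∃ r : ℝ, 0 < r ∧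
      {g : G | ((fun y : X => g • y) '' Metric.ball x r ∩ Metric.ball x r).Nonempty}.Finite)
    (hcocompact : ∃ K : Set X, IsCompact K ∧ ∀ x : X, ∃ g : G, g • x ∈ K)
    (H : Subgroup G) (hH : H.FG ∨ H = ⊤) :
    (∃ K : Subgroup H, K.FiniteIndex ∧ Group.IsSolvable K) ∨
      ∃ r : ℕ, 2 ≤ r ∧ ∀ k : ℕ, ∃ f : FreeGroup (Fin r) →* H, Function.Surjective f ∧
        ∀ w : FreeGroup (Fin r), w ≠ 1 → w.toWord.length ≤ k → f w ≠ 1 := by
  have hg : TitsLF.Geom G X := ⟨inferInstance, hiso, ⟨hgeo, hcn⟩, hproper, hcocompact⟩
  have hfg : H.FG := by
    rcases hH with h | rfl
    · exact h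
    · obtain ⟨S, -, -, hS⟩ := TitsLF.exists_gen (TitsLF.act_of_geom hg)
      exact ⟨S, hS⟩
  exact TitsLF.girth_alternative hg H hfg

end Pool.Agent.Results.MP_185419_al.GirthAlternative
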